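import Pool.Agent.helper65.GD.SpecE

/-!
# gdm:NUC (MP_ea335c_an)
-/

set_option autoImplicit false

namespace Pool.Agent.GD

open Finset

lemma NUC_closed (j i : ℕ) :
    AA (j + i) (j + i + 1) j = j * (2 * ((2 * (j + i) + 1).factorial : ℝ) /
      ((i + 1).factorial * (2 * j + i + 1).factorial)) := by
  unfold AA
  have e1 : j + i + 1 + (j + i) = 2 * (j + i) + 1 := by ring
  have e2 : j + i - j = i := by omega
  have e3 : j + i + j = 2 * j + i := by ring
  have e4 : j + i + 1 - (j + i) - 1 = 0 := by omega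
  rw [e1, e2, e3, e4]
  have h1 : ((i + 1).factorial : ℝ) = (i + 1) * i.factorial := by
    rw [Nat.factorial_succ]; push_cast; ring
  have h2 : ((2 * j + i + 1).factorial : ℝ) = (2 * j + i + 1) * (2 * j + i).factorial := by
    rw [Nat.factorial_succ]; push_cast; ring
  rw [h1, h2]
  have p1 : ((i.factorial : ℕ) : ℝ) ≠ 0 := by exact_mod_cast Nat.factorial_ne_zero i
  have p2 : (((2 * j + i).factorial : ℕ) : ℝ) ≠ 0 := by exact_mod_cast Nat.factorial_ne_zero _
  have p3 : ((i : ℝ) + 1) ≠ 0 := by positivity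
  have p4 : (2 * (j : ℝ) + i + 1) ≠ 0 := by positivity
  have e5 : (((j + i + 1 : ℕ) : ℝ)) ^ 2 - (j : ℝ) ^ 2 = (i + 1) * (2 * j + i + 1) := by
    push_cast; ring
  rw [e5, Nat.factorial_zero]
  push_cast
  field_simp

lemma NUC_step (j i : ℕ) :
    ((i : ℝ) + 1 + 1) * (AA (j + (i + 1)) (j + (i + 1) + 1) j * (j + 1)) =
      (2 * (j : ℝ) + i + 1 + 2) * (AA (j + 1 + i) (j + 1 + i + 1) (j + 1) * j) := by
  rw [NUC_closed j (i + 1), NUC_closed (j + 1) i]
  have e1 : 2 * (j + (i + 1)) + 1 = 2 * (j + 1 + i) + 1 := by ring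
  have e2 : 2 * (j + 1) + i + 1 = (2 * j + i + 2) + 1 := by ring
  have e3 : 2 * j + (i + 1) + 1 = 2 * j + i + 2 := by ring
  rw [e1, e2, e3]
  have h1 : ((i + 1 + 1).factorial : ℝ) = (i + 1 + 1) * (i + 1).factorial := by
    rw [Nat.factorial_succ]; push_cast; ring
  have h2 : ((2 * j + i + 2 + 1).factorial : ℝ) = (2 * j + i + 2 + 1) * (2 * j + i + 2).factorial := by
    rw [Nat.factorial_succ]; push_cast; ring
  rw [h1, h2]
  have p1 : (((i + 1).factorial : ℕ) : ℝ) ≠ 0 := by exact_mod_cast Nat.factorial_ne_zero _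
  have p2 : (((2 * j + i + 2).factorial : ℕ) : ℝ) ≠ 0 := by exact_mod_cast Nat.factorial_ne_zero _
  have p3 : ((i : ℝ) + 1 + 1) ≠ 0 := by positivity
  have p4 : (2 * (j : ℝ) + i + 2 + 1) ≠ 0 := by positivity
  push_cast
  field_simp
  ring

lemma NUC_ind (i : ℕ) : ∀ p j : ℕ, j + i = p → 1 ≤ j →
    ((p : ℝ) + 1) * AA p (p + 1) j - j * BB p (p + 1) j = 2 * j := by
  induction i with
  | zero =>
    intro p j hp hj
    subst hp
    have h0 := NUC_closed j 0
    have e1 : 2 * (j + 0) + 1 = 2 * j + 0 + 1 := by ring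
    rw [e1] at h0
    have p1 : (((2 * j + 0 + 1).factorial : ℕ) : ℝ) ≠ 0 := by
      exact_mod_cast Nat.factorial_ne_zero _
    have h1 : AA (j + 0) (j + 0 + 1) j = 2 * j := by
      rw [h0]
      norm_num
      field_simp
    unfold BB
    rw [h1]
    simp
    ring
  | succ i ih =>
    intro p j hp hj
    have h1 := ih p (j + 1) (by omega) (by omega)
    have hB : BB p (p + 1) j = BB p (p + 1) (j + 1) + AA p (p + 1) j + AA p (p + 1) (j + 1) := by
      unfold BB
      rw [← Finset.sum_Ioc_consecutive (fun q => AA p (p + 1) q) (Nat.le_succ j)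
        (show j + 1 ≤ p by omega)]
      rw [Nat.Ioc_succ_singleton, Finset.sum_singleton]
      ring
    have h2 := NUC_step j i
    have hp1 : j + (i + 1) = p := hp
    have hp2 : j + 1 + i = p := by omega
    rw [hp1, hp2] at h2
    rw [hB]
    have hj0 : (0 : ℝ) < (j : ℝ) + 1 := by positivity
    have hpr : (p : ℝ) = j + i + 1 := by rw [← hp]; push_cast; ring
    push_cast at h1
    have key : ((j : ℝ) + 1) * (((p : ℝ) + 1) * AA p (p + 1) j -
        j * (BB p (p + 1) (j + 1) + AA p (p + 1) j + AA p (p + 1) (j + 1)) - 2 * j) = 0 := by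
      rw [hpr] at h1 ⊢
      linear_combination (j : ℝ) * h1 + h2
    rcases mul_eq_zero.mp key with h | h
    · exact absurd h (ne_of_gt hj0)
    · linarith

theorem NUC : NUC_stmt := by
  intro p j hj hjp
  exact NUC_ind (p - j) p j (by omega) hj

end Pool.Agent.GD
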